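import Mathlib
import Pool.Agent.H321R2.OSI.Lower

/-!
# Q1: a constant failure probability is not enough

The bound of Q1 is false, for every constant in the `O`-term and every positive lower bound for the
probability: for every `δ > 0` there are a matrix `A` and an oblivious subspace injection with
dimension `1`, injectivity `1` (so there is no loss at all on a fixed line) and failure probability
`δ` such that the error of the randomized SVD exceeds the optimal error by the factor
`1 + δ³ / 864` for every outcome. With `δ = 0.01` and `ε → 0` this disproves the bound.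

The random matrix is zero with a small probability `1 / K`; otherwise its rows are the vectors
`√(K / (K - 1)) D_j b_j` with independent random signs `D_j` and unit vectors `b_j` of small
coherence, where `b_0` has the inner product `s` with every other `b_j`, `s² = 1 / (2 K³)`. The failure event
pays for a gain of the factor `K / (K - 1)` on all other outcomes, so that the random matrix has
injectivity `1` on every fixed line, although it is far from being an isometry; the matrix `A` is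
diagonal with the entries `√N, 1, …, 1`. The construction and the estimates for it are in the
starting library (`H321R2/OSI`); here the parameters are chosen and the conclusion is drawn.
-/

set_option autoImplicit false

namespace Pool.Agent.Results.MP_082b65_an.ConstantFailure

open MeasureTheory Matrix Finset Pool.Agent.H321R2.OSI

/-- The statement of Q1 with the constant `C` in the `O`-term and the lower bound `p₀` for the
probability: for every `0 < ε < 1`, every real matrix `A` (`n × d`), every `r ≥ 1` and every random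
`d × k` matrix `S` that is an oblivious subspace injection with dimension `r`, injectivity `1 - ε`
and failure probability `0.01`, there is an event `D` of probability at least `p₀` on which the
randomized SVD satisfies `‖A - Ã‖_F ≤ (1 + C ε) ‖A - A_r‖_F`. -/
def ConstBound (C p₀ : ℝ) : Prop :=
  ∀ ε : ℝ, 0 < ε → ε < 1 →
    ∀ (n d k r : ℕ), 1 ≤ r → r ≤ d → ∀ (A : Matrix (Fin n) (Fin d) ℝ)
      (W : Type) (_ : MeasurableSpace W) (P : Measure W) (_ : IsProbabilityMeasure P)
      (S : W → Matrix (Fin d) (Fin k) ℝ), IsOSI P S r (1 - ε) (1 / 100) →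
        ∃ D : Set W, MeasurableSet D ∧ p₀ ≤ P.real D ∧
          ∀ w ∈ D, frob (A - rsvd A (S w)) ≤ (1 + C * ε) * bestErr A r

/-- There are a matrix `A` and an oblivious subspace injection with dimension `1`, injectivity `1`
and failure probability `δ` for which the error of the randomized SVD is, for every outcome, larger
than `(1 + c) ‖A - A_1‖_F`. -/
def BadExample (δ c : ℝ) : Prop :=
  ∃ (d k : ℕ) (A : Matrix (Fin d) (Fin d) ℝ) (W : Type) (_ : MeasurableSpace W)
    (P : Measure W) (_ : IsProbabilityMeasure P) (S : W → Matrix (Fin d) (Fin k) ℝ),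
    1 ≤ d ∧ IsOSI P S 1 1 δ ∧ ∀ w, (1 + c) * bestErr A 1 < frob (A - rsvd A (S w))

/-- choice of the prime -/
lemma exists_prime (s : ℝ) (hs0 : 0 < s) (hs1 : s ≤ 1 / 2) :
    ∃ p : ℕ, p.Prime ∧ 1 / ((p : ℝ) - 1) ≤ s / 2 ∧
      (((p ^ 2 : ℕ) : ℝ) + 1) ≤ ((p ^ 3 : ℕ) : ℝ) * s ^ 2 / 4 := by
  obtain ⟨m, hm⟩ := exists_nat_gt (8 / s ^ 2 + 2)
  obtain ⟨p, hmp, hp⟩ := Nat.exists_infinite_primes m
  have hpm : (8 / s ^ 2 + 2 : ℝ) < p := hm.trans_le (by exact_mod_cast hmp)
  have hs2 : 0 < s ^ 2 := by positivity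
  have h8 : 8 / s ^ 2 < p := by linarith
  have h8' : 8 < p * s ^ 2 := by rwa [div_lt_iff₀ hs2] at h8
  refine ⟨p, hp, ?_, ?_⟩
  · have h1 : 2 / s ≤ (p : ℝ) - 1 := by
      have : 2 / s ≤ 8 / s ^ 2 := by
        rw [div_le_div_iff₀ hs0 hs2]
        nlinarith
      linarith
    rw [div_le_iff₀ (by linarith [div_pos two_pos hs0])]
    have := mul_le_mul_of_nonneg_left h1 hs0.le
    have e : s * (2 / s) = 2 := by field_simp
    rw [e] at this
    nlinarith
  · push_cast
    have hp1 : (1 : ℝ) ≤ p := by exact_mod_cast hp.one_lt.le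
    have h2 : (1 : ℝ) ≤ (p : ℝ) ^ 2 := one_le_pow₀ hp1
    have h3 : (p : ℝ) ^ 3 * s ^ 2 / 4 = (p : ℝ) ^ 2 * (p * s ^ 2) / 4 := by ring
    rw [h3]
    nlinarith

/-- the example for a mixture parameter `K` -/
lemma example_K (K : ℕ) (hK : 2 ≤ K) (δ : ℝ) (hδ : 2 ≤ δ * K) :
    ∃ (d k : ℕ) (A : Matrix (Fin d) (Fin d) ℝ) (W : Type) (_ : MeasurableSpace W)
      (P : Measure W) (_ : IsProbabilityMeasure P) (S : W → Matrix (Fin d) (Fin k) ℝ) (E : ℝ),
      1 ≤ d ∧ (∀ ε : ℝ, 0 ≤ ε → IsOSI P S 1 (1 - ε) δ) ∧ 0 < E ∧ bestErr A 1 ≤ E ∧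
      ∀ w, (1 + 1 / (32 * (K : ℝ) ^ 3)) * E ≤ frob (A - rsvd A (S w)) := by
  have hKr : (2 : ℝ) ≤ K := by exact_mod_cast hK
  have hK3 : (8 : ℝ) ≤ (K : ℝ) ^ 3 := by
    calc (8 : ℝ) = 2 ^ 3 := by norm_num
      _ ≤ (K : ℝ) ^ 3 := pow_le_pow_left₀ (by norm_num) hKr 3
  set s : ℝ := Real.sqrt (1 / (2 * (K : ℝ) ^ 3)) with hs
  have hs2 : s ^ 2 = 1 / (2 * (K : ℝ) ^ 3) := Real.sq_sqrt (by positivity)
  have hs0 : 0 < s := Real.sqrt_pos.2 (by positivity)
  have hs2' : s ^ 2 ≤ 1 / 16 := by
    rw [hs2]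
    apply one_div_le_one_div_of_le (by norm_num)
    linarith
  have hs1 : s ≤ 1 / 2 := by nlinarith
  obtain ⟨p, hp, hp1, hp2⟩ := exists_prime s hs0 hs1
  have : Fact p.Prime := ⟨hp⟩
  have : NeZero K := ⟨by omega⟩
  obtain ⟨v, hv1, hv2, hv3⟩ := exists_lowcoh (p := p)
  have hN : 0 < p ^ 3 := pow_pos hp.pos 3
  have hNr : (0 : ℝ) < ((p ^ 3 : ℕ) : ℝ) := by exact_mod_cast hN
  have hs21 : s ^ 2 ≤ 1 := by linarith
  have hcoh : ∀ j l : Fin (p ^ 3 + 1), j ≠ l → |gram (brow s v) j l| ≤ s := by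
    intro j l
    refine Fin.cases ?_ (fun j' => ?_) j
    · refine Fin.cases (fun h => absurd rfl h) (fun l' _ => ?_) l
      rw [gram_brow_zero_succ, abs_of_pos hs0]
    · refine Fin.cases (fun _ => ?_) (fun l' h => ?_) l
      · rw [gram_symm, gram_brow_zero_succ, abs_of_pos hs0]
      · have hne : j' ≠ l' := fun h' => h (by rw [h'])
        rw [gram_brow_succ s hs21]
        have h1 := (hv2 j' l' hne).trans hp1
        have h2 : |(1 - s ^ 2) * ∑ i, v j' i * v l' i| ≤ s / 2 := by
          rw [abs_mul, abs_of_nonneg (by linarith : (0 : ℝ) ≤ 1 - s ^ 2)]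
          have h3 := abs_nonneg (∑ i, v j' i * v l' i)
          nlinarith [sq_nonneg s]
        refine (abs_add_le _ _).trans ?_
        rw [abs_of_nonneg (sq_nonneg s)]
        nlinarith
  have hdiag : ∀ j : Fin (p ^ 3 + 1), gram (brow s v) j j = 1 := by
    intro j
    refine Fin.cases ?_ (fun j' => ?_) j
    · exact gram_brow_zero s v
    · rw [gram_brow_succ s hs21, hv1]
      ring
  have hsK : 2 * s ^ 2 * (K : ℝ) ^ 3 ≤ 1 := by
    rw [hs2]
    have : (K : ℝ) ^ 3 ≠ 0 := by positivity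
    field_simp
    exact le_refl _
  refine ⟨p ^ 3 + 1, p ^ 2 + 1, diagonal (avec (p ^ 3)), Smp K (p ^ 3 + 1), inferInstance,
    unif _, inferInstance, Smat K (brow s v), Real.sqrt ((p ^ 3 : ℕ) : ℝ), by omega, fun ε hε =>
      isOSI_Smat hK (brow s v) hdiag s hcoh hsK δ hδ ε hε, Real.sqrt_pos.2 hNr,
      bestErr_le (p ^ 3), fun w => ?_⟩
  have h1 := err_lower hK s (by linarith) hs0 v hv3 hN hp2 w
  have h2 : 1 / (32 * (K : ℝ) ^ 3) = s ^ 2 / 16 := by
    rw [hs2]; ring
  rw [h2]
  apply le_of_sq_le_sq _ (Real.sqrt_nonneg _)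
  refine le_trans ?_ h1
  rw [mul_pow, Real.sq_sqrt hNr.le, mul_comm]
  apply mul_le_mul_of_nonneg_left _ hNr.le
  nlinarith [sq_nonneg s]

lemma bestErr_nonneg' {n d : ℕ} (A : Matrix (Fin n) (Fin d) ℝ) (r : ℕ) : 0 ≤ bestErr A r := by
  unfold bestErr
  apply Real.sInf_nonneg
  rintro e ⟨B, _, rfl⟩
  exact Real.sqrt_nonneg _

lemma quantitative (δ : ℝ) (hδ0 : 0 < δ) (hδ1 : δ ≤ 1) : BadExample δ (δ ^ 3 / 864) := by
  have h2δ : 2 ≤ 2 / δ := by
    rw [le_div_iff₀ hδ0]; linarith
  set K : ℕ := ⌈2 / δ⌉₊ with hKdef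
  have hK1 : 2 / δ ≤ K := Nat.le_ceil _
  have hK2 : (K : ℝ) < 2 / δ + 1 := Nat.ceil_lt_add_one (by positivity)
  have hK : 2 ≤ K := by
    have : (2 : ℝ) ≤ K := h2δ.trans hK1
    exact_mod_cast this
  have hKr : (2 : ℝ) ≤ K := by exact_mod_cast hK
  have hδK : 2 ≤ δ * K := by
    rw [div_le_iff₀ hδ0] at hK1
    linarith
  obtain ⟨d, k, A, W, mW, P, hP, S, E, hd, hS, hE, hb, h⟩ := example_K K hK δ hδK
  refine ⟨d, k, A, W, mW, P, hP, S, hd, ?_, fun w => ?_⟩
  · have := hS 0 le_rfl
    rwa [sub_zero] at this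
  · have hKδ : (K : ℝ) * δ < 3 := by
      have := mul_lt_mul_of_pos_right hK2 hδ0
      have e : (2 / δ + 1) * δ = 2 + δ := by field_simp
      linarith
    have h3 : ((K : ℝ) * δ) ^ 3 < 27 := by
      calc ((K : ℝ) * δ) ^ 3 < 3 ^ 3 := pow_lt_pow_left₀ hKδ (by positivity) (by norm_num)
        _ = 27 := by norm_num
    have h4 : δ ^ 3 / 864 < 1 / (32 * (K : ℝ) ^ 3) := by
      rw [div_lt_div_iff₀ (by norm_num) (by positivity)]
      nlinarith
    refine lt_of_lt_of_le ?_ (h w)
    have h5 : 0 < 1 + δ ^ 3 / 864 := by positivity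
    calc (1 + δ ^ 3 / 864) * bestErr A 1 ≤ (1 + δ ^ 3 / 864) * E :=
          mul_le_mul_of_nonneg_left hb h5.le
      _ < (1 + 1 / (32 * (K : ℝ) ^ 3)) * E := by
          apply mul_lt_mul_of_pos_right _ hE
          linarith

lemma not_constBound (C p₀ : ℝ) (hp : 0 < p₀) : ¬ ConstBound C p₀ := by
  intro hC
  obtain ⟨d, k, A, W, mW, P, hP, S, E, hd, hS, hE, hb, h⟩ :=
    example_K 200 (by norm_num) (1 / 100) (by norm_num)
  set c : ℝ := 1 / (32 * ((200 : ℕ) : ℝ) ^ 3)
  have hc0 : 0 < c := by positivity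
  clear_value c
  set ε : ℝ := min (1 / 2) (c / (2 * (|C| + 1))) with hε
  have hC1 : 0 < |C| + 1 := by positivity
  have hε0 : 0 < ε := lt_min (by norm_num) (by positivity)
  have hε1 : ε < 1 := lt_of_le_of_lt (min_le_left _ _) (by norm_num)
  have hε2 : ε ≤ c / (2 * (|C| + 1)) := min_le_right _ _
  have hCε : C * ε < c := by
    have h1 : C * ε ≤ (|C| + 1) * ε :=
      mul_le_mul_of_nonneg_right (by linarith [le_abs_self C]) hε0.le
    have h2 : (|C| + 1) * ε ≤ c / 2 := by
      have := mul_le_mul_of_nonneg_left hε2 hC1.le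
      have e : (|C| + 1) * (c / (2 * (|C| + 1))) = c / 2 := by field_simp
      linarith
    exact lt_of_le_of_lt (h1.trans h2) (half_lt_self hc0)
  obtain ⟨D, -, hD1, hD2⟩ := hC ε hε0 hε1 d d k 1 le_rfl hd A W mW P hP S (hS ε hε0.le)
  have hne : D.Nonempty := by
    by_contra hcon
    rw [Set.not_nonempty_iff_eq_empty] at hcon
    rw [hcon, measureReal_empty] at hD1
    linarith
  obtain ⟨w, hw⟩ := hne
  have h1 := hD2 w hw
  have h2 := h w
  have hb0 := bestErr_nonneg' A 1
  have h3 : (1 + C * ε) * bestErr A 1 < (1 + c) * E := by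
    rcases le_or_gt 0 (1 + C * ε) with h4 | h4
    · calc (1 + C * ε) * bestErr A 1 ≤ (1 + C * ε) * E := mul_le_mul_of_nonneg_left hb h4
        _ < (1 + c) * E := mul_lt_mul_of_pos_right (by linarith) hE
    · have h5 : (1 + C * ε) * bestErr A 1 ≤ 0 := mul_nonpos_of_nonpos_of_nonneg h4.le hb0
      have h6 : 0 < (1 + c) * E := by positivity
      linarith
  linarith

/-- **Negative answer to Q1.** For every `0 < δ ≤ 1` there is an oblivious subspace injection with
dimension `1`, injectivity `1` and failure probability `δ` whose randomized SVD has, for some matrix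
`A` and every outcome, an error larger than `(1 + δ³ / 864) ‖A - A_1‖_F`. In particular no constants
`C` and `p₀ > 0` exist with which the bound of Q1 holds (`δ = 0.01`, `ε → 0`). -/
theorem result : (∀ δ : ℝ, 0 < δ → δ ≤ 1 → BadExample δ (δ ^ 3 / 864)) ∧
    ∀ C p₀ : ℝ, 0 < p₀ → ¬ ConstBound C p₀ :=
  ⟨quantitative, not_constBound⟩

end Pool.Agent.Results.MP_082b65_an.ConstantFailure
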